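import Mathlib
import Pool.Agent.Q42.Flat

/-!
# The exponential sums of the Liouville function are not flat from below

The minimum `m(N)` of `|∑_{n ≤ N} λ(n) e(n θ)|` over `θ` is bounded along a sequence `N → ∞`; in particular
`liminf m(N) / √N = 0`. The proof works for every sequence of signs: if `m(N) > 1` for all large `N`, the
number `w` of zeros in the unit disc is eventually constant (Rouche), all zeros have modulus at least
`1 / 2`, and Jensen's formula gives `m(N) ≤ 2^w`.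
-/

set_option autoImplicit false

open Filter Real

namespace Pool.Agent.Results.MP_69dca4_nt.BoundedMinima

/-- the exponential sum `S_N(θ) = ∑_{n=1}^N λ(n) e^{2πinθ}` of the Liouville function `λ(n) = (-1)^Ω(n)` -/
noncomputable def S (N : ℕ) (θ : ℝ) : ℂ :=
  ∑ n ∈ Finset.Icc 1 N, ((-1 : ℂ) ^ ArithmeticFunction.cardFactors n) *
    Complex.exp (2 * π * Complex.I * n * θ)

/-- `m(N) = min_θ |S_N(θ)|` (the infimum is attained, see `m_attained`) -/
noncomputable def m (N : ℕ) : ℝ := ⨅ θ : ℝ, ‖S N θ‖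

/-- the signs, shifted -/
noncomputable def c (n : ℕ) : ℂ := (-1 : ℂ) ^ ArithmeticFunction.cardFactors (n + 1)

lemma norm_c (n : ℕ) : ‖c n‖ = 1 := by
  rw [c, norm_pow, norm_neg, norm_one, one_pow]

lemma S_eq (N : ℕ) (θ : ℝ) : S N θ = Complex.exp (2 * π * Complex.I * θ) *
      (Pool.Agent.Q42.Flat.P c N).eval (Complex.exp (2 * π * Complex.I * θ)) := by
  induction N with
  | zero => simp [S, Pool.Agent.Q42.Flat.P]
  | succ N ih =>
    have h1 : S (N + 1) θ = S N θ + ((-1 : ℂ) ^ ArithmeticFunction.cardFactors (N + 1)) *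
        Complex.exp (2 * π * Complex.I * ((N + 1 : ℕ) : ℂ) * θ) := by
      rw [S, S, Finset.sum_Icc_succ_top (by omega)]
    have h2 : Complex.exp (2 * π * Complex.I * ((N + 1 : ℕ) : ℂ) * θ) =
        Complex.exp (2 * π * Complex.I * θ) * Complex.exp (2 * π * Complex.I * θ) ^ N := by
      rw [← pow_succ', ← Complex.exp_nat_mul]
      congr 1
      ring
    rw [h1, ih, Pool.Agent.Q42.Flat.P_succ, Polynomial.eval_add, Polynomial.eval_mul,
      Polynomial.eval_C, Polynomial.eval_pow, Polynomial.eval_X, h2, c]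
    ring

lemma norm_S (N : ℕ) (θ : ℝ) :
    ‖S N θ‖ = ‖(Pool.Agent.Q42.Flat.P c N).eval (Complex.exp (2 * π * Complex.I * θ))‖ := by
  have h2 : ‖Complex.exp (2 * π * Complex.I * θ)‖ = 1 := by
    have : (2 * π * Complex.I * θ : ℂ) = ((2 * π * θ : ℝ) : ℂ) * Complex.I := by
      push_cast; ring
    rw [this, Complex.norm_exp_ofReal_mul_I]
  rw [S_eq, norm_mul, h2, one_mul]

/-- every point of the unit circle is `e(θ)` -/
lemma exists_theta {z : ℂ} (hz : ‖z‖ = 1) : ∃ θ : ℝ, Complex.exp (2 * π * Complex.I * θ) = z := by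
  obtain ⟨φ, hφ⟩ := (Complex.norm_eq_one_iff z).1 hz
  refine ⟨φ / (2 * π), ?_⟩
  rw [← hφ]
  congr 1
  push_cast
  have : (π : ℂ) ≠ 0 := by exact_mod_cast pi_ne_zero
  field_simp

lemma bddBelow (N : ℕ) : BddBelow (Set.range fun θ : ℝ => ‖S N θ‖) :=
  ⟨0, by rintro _ ⟨θ, rfl⟩; exact norm_nonneg _⟩

/-- the infimum defining `m N` is attained -/
lemma m_attained (N : ℕ) : ∃ θ : ℝ, m N = ‖S N θ‖ := by
  have hcomp : IsCompact (Metric.sphere (0 : ℂ) 1) := isCompact_sphere 0 1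
  obtain ⟨z₀, hz₀, h5⟩ := hcomp.exists_isMinOn ⟨1, by simp⟩
    (f := fun z => ‖(Pool.Agent.Q42.Flat.P c N).eval z‖) (by fun_prop)
  obtain ⟨θ, hθ⟩ := exists_theta (z := z₀) (by simpa using hz₀)
  refine ⟨θ, le_antisymm (ciInf_le (bddBelow N) θ) (le_ciInf fun φ => ?_)⟩
  rw [norm_S, norm_S, hθ]
  apply h5
  have : (2 * π * Complex.I * φ : ℂ) = ((2 * π * φ : ℝ) : ℂ) * Complex.I := by
    push_cast; ring
  rw [this, mem_sphere_zero_iff_norm, Complex.norm_exp_ofReal_mul_I]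

lemma m_nonneg (N : ℕ) : 0 ≤ m N := by
  obtain ⟨θ, h⟩ := m_attained N
  rw [h]; exact norm_nonneg _

/-- **Bounded minima.** There is `K` with `m(N) ≤ K` for infinitely many `N`; in particular
`liminf m(N) / √N = 0`. -/
theorem result : (∃ K : ℝ, ∃ᶠ N : ℕ in atTop, m N ≤ K) ∧
    liminf (fun N : ℕ => m N / √(N : ℝ)) atTop = 0 := by
  have h1 : ∃ K : ℝ, ∃ᶠ N : ℕ in atTop, m N ≤ K := by
    obtain ⟨K, hK⟩ := Pool.Agent.Q42.Flat.exists_bound norm_c
    refine ⟨K, hK.mono ?_⟩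
    rintro N ⟨z, hz, hle⟩
    obtain ⟨θ, rfl⟩ := exists_theta hz
    rw [← norm_S] at hle
    exact (ciInf_le (bddBelow N) θ).trans hle
  refine ⟨h1, ?_⟩
  obtain ⟨K, hK⟩ := h1
  have hnn : ∀ N : ℕ, 0 ≤ m N / √(N : ℝ) := fun N => div_nonneg (m_nonneg N) (Real.sqrt_nonneg _)
  have hsmall : ∀ ε : ℝ, 0 < ε → ∃ᶠ N : ℕ in atTop, m N / √(N : ℝ) ≤ ε := by
    intro ε hε
    have hsqrt : Tendsto (fun n : ℕ => √(n : ℝ)) atTop atTop :=
      Real.tendsto_sqrt_atTop.comp tendsto_natCast_atTop_atTop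
    have h2 : ∀ᶠ N : ℕ in atTop, |K| / ε + 1 ≤ √(N : ℝ) := hsqrt.eventually_ge_atTop _
    refine (hK.and_eventually h2).mono ?_
    rintro N ⟨h3, h4⟩
    have h5 : 0 < √(N : ℝ) := by
      have : 0 ≤ |K| / ε := by positivity
      linarith
    rw [div_le_iff₀ h5]
    have h6 : |K| ≤ ε * √(N : ℝ) := by
      have h7 : |K| / ε ≤ √(N : ℝ) := by linarith
      rw [div_le_iff₀ hε] at h7
      linarith
    exact h3.trans ((le_abs_self K).trans h6)
  have hbdd : IsBoundedUnder (· ≥ ·) atTop (fun N : ℕ => m N / √(N : ℝ)) :=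
    ⟨0, by simp only [eventually_map]; exact Eventually.of_forall hnn⟩
  have hcob : IsCoboundedUnder (· ≥ ·) atTop (fun N : ℕ => m N / √(N : ℝ)) :=
    IsCoboundedUnder.of_frequently_le (hsmall 1 one_pos)
  apply le_antisymm
  · apply le_of_forall_pos_le_add
    intro ε hε
    rw [zero_add]
    exact liminf_le_of_frequently_le (hsmall ε hε) hbdd
  · exact le_liminf_of_le hcob (Eventually.of_forall hnn)

end Pool.Agent.Results.MP_69dca4_nt.BoundedMinima
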